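import Pool.Agent.R499.GB.All

/-!
# MP_cdbd41_nt: word frequencies in expansions with a Gaussian rational base (full answer)

For every non-real quadratic `α` of modulus `> 1` (in particular for every `α ∈ ℚ(i) \ ℝ` with
`|α| > 1`), for almost every `x : ℂ`, in every `α`-expansion of `x` every word of length `ℓ` over
the digits `{0, …, |a₀| - 1}` has the frequency `|a₀| ^ (-ℓ)`.
-/

set_option autoImplicit false

namespace Pool.Agent.Results.MP_cdbd41_nt.NormalWords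

open Filter Topology

/-- the lattice `Λ_α = a₂ ℤ + (a₂ α + a₁) ℤ` -/
def Lattice (a1 a2 : ℤ) (α : ℂ) : Set ℂ :=
  {z | ∃ u v : ℤ, z = u * a2 + v * (a2 * α + a1)}

/-- `(d_j)_{j ≤ k}`, written `d_k = d 0`, `d_{k-1} = d 1`, …, is an `α`-expansion of `x` with
starting point `N₀`: the digits are in `{0, …, |a₀| - 1}`, `x = N₀ α^(k+1) + ∑_{j ≤ k} d_j α^j`,
`N₀` and all `N_m = N₀ α^(k+1-m) + ∑_{j = m}^{k} d_j α^(j - m)`, `m ≤ k` (here `m = k - t`), are
in `Λ_α`. For `N₀ = 0` this is exactly an `α`-expansion of `x` as in the problem. -/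
structure IsExpansion (a0 a1 a2 : ℤ) (α x N₀ : ℂ) (k : ℤ) (d : ℕ → ℤ) : Prop where
  digit : ∀ t, 0 ≤ d t ∧ d t < |a0|
  sum : HasSum (fun t : ℕ => (d t : ℂ) * α ^ (k - (t : ℤ))) (x - N₀ * α ^ (k + 1))
  start : N₀ ∈ Lattice a1 a2 α
  mem : ∀ t : ℕ, N₀ * α ^ (t + 1) + ∑ i ∈ Finset.range (t + 1), (d i : ℂ) * α ^ (t - i) ∈
    Lattice a1 a2 α

/-- the word `w` of length `ℓ` has the frequency `c` in the infinite word `d 0, d 1, d 2, …` -/
def HasFrequency (d : ℕ → ℤ) (ℓ : ℕ) (w : Fin ℓ → ℤ) (c : ℝ) : Prop :=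
  Tendsto (fun n : ℕ =>
    (((Finset.range n).filter (fun t => ∀ i : Fin ℓ, d (t + i) = w i)).card : ℝ) / n)
    atTop (𝓝 c)

/-- Full answer to Q1 (true), with `N₀ = 0`. -/
theorem result (α : ℂ) (a0 a1 a2 : ℤ) (him : α.im ≠ 0) (hα : 1 < ‖α‖)
    (h2 : 0 < a2) (hg : ∀ c : ℤ, c ∣ a0 → c ∣ a1 → c ∣ a2 → IsUnit c)
    (hroot : (a2 : ℂ) * α ^ 2 + a1 * α + a0 = 0) :
    ∀ᵐ x : ℂ, ∀ (N₀ : ℂ) (k : ℤ) (d : ℕ → ℤ), IsExpansion a0 a1 a2 α x N₀ k d →
      ∀ (ℓ : ℕ) (w : Fin ℓ → ℤ), (∀ i, 0 ≤ w i ∧ w i < |a0|) →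
        HasFrequency d ℓ w (1 / (|a0| : ℝ) ^ ℓ) := by
  have hα0 : α ≠ 0 := by
    intro h0
    rw [h0, norm_zero] at hα
    linarith
  filter_upwards [R499.GB.final a0 a1 a2 α h2 hg hroot him hα] with x hx N₀ k d h
  refine hx.2 k (fun t => N₀ * α ^ t + ∑ i ∈ Finset.range t, (d i : ℂ) * α ^ (t - 1 - i)) d
    ⟨h.digit, ?_, ?_, ?_⟩
  · intro t
    rcases t with _ | t
    · have e : N₀ * α ^ 0 + ∑ i ∈ Finset.range 0, (d i : ℂ) * α ^ (0 - 1 - i) = N₀ := by simp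
      rw [e]
      exact h.start
    · exact h.mem t
  · intro t
    rw [Finset.sum_range_succ, mul_add, Finset.mul_sum]
    have h1 : t + 1 - 1 - t = 0 := by omega
    rw [h1, pow_zero, mul_one, pow_succ, ← add_assoc]
    congr 2
    · ring
    refine Finset.sum_congr rfl fun i hi => ?_
    have hi' := Finset.mem_range.1 hi
    have h2 : t + 1 - 1 - i = (t - 1 - i) + 1 := by omega
    rw [h2, pow_succ]
    ring
  · have h1 := h.sum.tendsto_sum_nat.const_add (N₀ * α ^ (k + 1))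
    rw [add_sub_cancel] at h1
    refine h1.congr fun t => ?_
    rw [mul_add, Finset.mul_sum]
    congr 1
    · rw [mul_left_comm, ← zpow_natCast α t, ← zpow_add₀ hα0]
      congr 2
      ring
    refine Finset.sum_congr rfl fun i hi => ?_
    have hi' := Finset.mem_range.1 hi
    have h2 : ((t - 1 - i : ℕ) : ℤ) = (t : ℤ) - 1 - i := by omega
    rw [← zpow_natCast α (t - 1 - i), h2, mul_left_comm, ← zpow_add₀ hα0]
    congr 2
    ring

end Pool.Agent.Results.MP_cdbd41_nt.NormalWords
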